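import Pool.Agent.H.MP_44674b_co.T

namespace Pool.Agent.Results.MP_44674b_co.Yes

open Finset

variable {X : Type} [Fintype X] [DecidableEq X] {d : ℕ}

/-- `r x y = i` says that `(x, y)` lies in the relation `R i` of a `d`-class symmetric scheme -/
structure IsScheme (r : X → X → Fin (d + 1)) : Prop where
  surj : ∀ i, ∃ x y, r x y = i
  diag : ∀ x y, r x y = 0 ↔ x = y
  symm : ∀ x y, r x y = r y x
  reg : ∀ i j k, ∃ p : ℕ, ∀ x y, r x y = k →
    (univ.filter fun z => r x z = i ∧ r z y = j).card = p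

/-- the adjacency matrix `A i` -/
def adj (r : X → X → Fin (d + 1)) (i : Fin (d + 1)) : Matrix X X ℂ :=
  Matrix.of fun x y => if r x y = i then 1 else 0

/-- the Bose-Mesner algebra -/
def BM (r : X → X → Fin (d + 1)) : Submodule ℂ (Matrix X X ℂ) :=
  Submodule.span ℂ (Set.range (adj r))

/-- the span of the triangle tensors -/
def WD (r : X → X → Fin (d + 1)) : Submodule ℂ (X → X → X → ℂ) :=
  Submodule.span ℂ {t | ∃ L ∈ BM r, ∃ M ∈ BM r, ∃ N ∈ BM r,
    t = fun x y z => L x z * M x y * N y z}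

/-- the span of the star tensors -/
def WY (r : X → X → Fin (d + 1)) : Submodule ℂ (X → X → X → ℂ) :=
  Submodule.span ℂ {t | ∃ L ∈ BM r, ∃ M ∈ BM r, ∃ N ∈ BM r,
    t = fun x y z => ∑ u, L x u * M y u * N z u}

/-- some ordering of the adjacency matrices and of the primitive idempotents gives `P = Q` -/
def FormallySelfDual (r : X → X → Fin (d + 1)) : Prop :=
  ∃ (σ : Equiv.Perm (Fin (d + 1))) (E : Fin (d + 1) → Matrix X X ℂ)
    (P : Matrix (Fin (d + 1)) (Fin (d + 1)) ℂ),
    (∀ j, E j ∈ BM r ∧ E j ≠ 0) ∧ (∀ j k, E j * E k = if j = k then E j else 0) ∧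
    ∑ j, E j = 1 ∧ E 0 = (Matrix.of fun _ _ => (Fintype.card X : ℂ)⁻¹) ∧
    (∀ i, adj r (σ i) = ∑ j, P j i • E j) ∧
    ∀ i, E i = (Fintype.card X : ℂ)⁻¹ • ∑ j, P j i • adj r (σ j)

open H.MP_44674b_co

lemma adj_mem (i : Fin 3) : adj rr i ∈ BM rr := Submodule.subset_span ⟨i, rfl⟩

lemma adj_aa (i : Fin 3) (x y : Fin 6) : adj rr i x y = (aa i x y : ℂ) := by
  simp only [adj, aa, Matrix.of_apply]; split_ifs <;> simp

lemma dd_mem (p : I3) : (fun x y z => (dd p x y z : ℂ)) ∈ WD rr :=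
  Submodule.subset_span ⟨_, adj_mem p.1, _, adj_mem p.2.1, _, adj_mem p.2.2, by
    ext x y z; simp [adj_aa, dd]⟩

lemma yy_mem (p : I3) : (fun x y z => (yy p x y z : ℂ)) ∈ WY rr :=
  Submodule.subset_span ⟨_, adj_mem p.1, _, adj_mem p.2.1, _, adj_mem p.2.2, by
    ext x y z; simp [adj_aa, yy]⟩

lemma yy_memD (p : I3) : (fun x y z => (yy p x y z : ℂ)) ∈ WD rr := by
  have : (fun x y z => (yy p x y z : ℂ)) = ∑ q, (NN p q : ℂ) • fun x y z => (dd q x y z : ℂ) := by
    ext x y z
    simp [h1, h3, Finset.sum_apply]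
  rw [this]
  exact Submodule.sum_mem _ fun q _ => Submodule.smul_mem _ _ (dd_mem q)

lemma dd_memY (p : I3) : (fun x y z => (dd p x y z : ℂ)) ∈ WY rr := by
  have : (fun x y z => (dd p x y z : ℂ)) = ∑ q, (CC p q : ℂ) • fun x y z => (yy q x y z : ℂ) := by
    ext x y z
    simp only [h1, h3, Finset.sum_apply, Pi.smul_apply, smul_eq_mul, ← h2 p _ (h0 x y z)]
    push_cast; rfl
  rw [this]
  exact Submodule.sum_mem _ fun q _ => Submodule.smul_mem _ _ (yy_mem q)

lemma expand {L : Matrix (Fin 6) (Fin 6) ℂ} (h : L ∈ BM rr) :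
    ∃ a : Fin 3 → ℂ, ∀ x y, L x y = ∑ i, a i * (aa i x y : ℂ) := by
  obtain ⟨a, rfl⟩ := (Submodule.mem_span_range_iff_exists_fun ℂ).1 h
  exact ⟨a, fun x y => by simp [Matrix.sum_apply, adj_aa]⟩

lemma notSD : ¬ FormallySelfDual rr := by
  rintro ⟨σ, E, P, -, h2, h3, h4, h5, h6⟩
  have en : ∀ i x y, E i x y = 6⁻¹ * P (σ.symm (rr x y)) i := fun i x y => by
    rw [h6 i]
    simp only [Matrix.smul_apply, Matrix.sum_apply, adj, Matrix.of_apply, smul_eq_mul, mul_ite,
      mul_one, mul_zero, ← Equiv.symm_apply_eq, Finset.sum_ite_eq, Finset.mem_univ, if_true]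
    simp
  have e0 : ∀ x y, E 0 x y = 6⁻¹ := fun x y => by rw [h4]; simp
  have p0 : ∀ j, P j 0 = 1 := fun j => by
    obtain ⟨y, hy⟩ : ∃ y, rr 0 y = σ j := (by decide : ∀ k, ∃ y, rr 0 y = k) _
    have := en 0 0 y
    rw [e0, hy, Equiv.symm_apply_apply] at this
    linear_combination (-6) * this
  have s0 : σ 0 = 0 := by
    have := h5 0
    simp only [p0, one_smul, h3] at this
    have k := congrFun (congrFun this 0) 0
    by_contra c
    have : ¬ rr 0 0 = σ 0 := fun e => c e.symm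
    simp [adj, this] at k
  have s1 : σ.symm 0 = 0 := by rw [Equiv.symm_apply_eq, s0]
  obtain ⟨i, hi⟩ := σ.surjective 1
  have i0 : i ≠ 0 := fun e => by rw [e, s0] at hi; exact absurd hi (by decide)
  have k0 : P 0 i = 2 := by
    have := congrArg (fun M => (M * E 0) 0 0) (h5 i)
    simp only [Finset.sum_mul, smul_mul_assoc, h2, smul_ite, smul_zero, Finset.sum_ite_eq',
      Finset.mem_univ, if_true, Matrix.smul_apply, e0, smul_eq_mul, hi] at this
    simp [Matrix.mul_apply, Fin.sum_univ_six, adj, rr, e0] at this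
    linear_combination (-6) * this
  have a1 := congrFun (congrFun (h2 i i) 0) 0
  have a2 := congrFun (congrFun (h2 i i) 0) 3
  have a3 := congrFun (congrFun (h2 i 0) 0) 0
  simp only [if_true, i0, if_false, Matrix.mul_apply, Fin.sum_univ_six, e0, Matrix.zero_apply]
    at a1 a2 a3
  simp only [en] at a1 a2 a3
  simp [rr, s1, k0] at a1 a2 a3
  generalize P (σ.symm 1) i = a at a1 a2 a3
  generalize P (σ.symm 2) i = b at a1 a2 a3
  have b1 : b * (2 * a - 1) = 0 := by linear_combination 18 * a2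
  have b2 : 2 + 2 * a + 3 * b = 0 := by linear_combination 36 * a3
  have b3 : 2 * a ^ 2 + 3 * b ^ 2 = 8 := by linear_combination 36 * a1
  rcases mul_eq_zero.1 b1 with e | e
  · have : a = -1 := by linear_combination (1 / 2) * b2 - (3 / 2) * e
    rw [this, e] at b3; norm_num at b3
  · have f : a = 1 / 2 := by linear_combination (1 / 2) * e
    have : b = -1 := by linear_combination (1 / 3) * b2 - (1 / 3) * e
    rw [this, f] at b3; norm_num at b3

theorem result : ∃ (n d : ℕ) (r : Fin n → Fin n → Fin (d + 1)),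
    IsScheme r ∧ WY r ≤ WD r ∧ WD r ≤ WY r ∧ ¬ FormallySelfDual r := by
  refine ⟨6, 2, rr, ⟨by decide, by decide, by decide, fun i j k => ?_⟩, ?_, ?_, notSD⟩
  · exact ⟨(univ.filter fun z => rr 0 z = i ∧ rr z (![0, 1, 3] k) = j).card, by
      revert i j k; decide +kernel⟩
  · refine Submodule.span_le.2 ?_
    rintro t ⟨L, hL, M, hM, N, hN, rfl⟩
    obtain ⟨a, ha⟩ := expand hL
    obtain ⟨b, hb⟩ := expand hM
    obtain ⟨c, hc⟩ := expand hN
    have : (fun x y z => ∑ u, L x u * M y u * N z u) =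
        ∑ p : I3, (a p.1 * b p.2.1 * c p.2.2) • fun x y z => (yy p x y z : ℂ) := by
      ext x y z
      simp only [ha, hb, hc, Finset.sum_apply, Pi.smul_apply, smul_eq_mul, yy,
        Fintype.sum_prod_type, Fin.sum_univ_three, Fin.sum_univ_six]
      push_cast; ring
    rw [this]
    exact Submodule.sum_mem _ fun q _ => Submodule.smul_mem _ _ (yy_memD q)
  · refine Submodule.span_le.2 ?_
    rintro t ⟨L, hL, M, hM, N, hN, rfl⟩
    obtain ⟨a, ha⟩ := expand hL
    obtain ⟨b, hb⟩ := expand hM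
    obtain ⟨c, hc⟩ := expand hN
    have : (fun x y z => L x z * M x y * N y z) =
        ∑ p : I3, (a p.1 * b p.2.1 * c p.2.2) • fun x y z => (dd p x y z : ℂ) := by
      ext x y z
      simp only [ha, hb, hc, Finset.sum_apply, Pi.smul_apply, smul_eq_mul, dd,
        Fintype.sum_prod_type, Fin.sum_univ_three]
      push_cast; ring
    rw [this]
    exact Submodule.sum_mem _ fun q _ => Submodule.smul_mem _ _ (dd_memY q)

end Pool.Agent.Results.MP_44674b_co.Yes
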